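import Pool.Agent.H14R3.KK.Defs

/-! Task ASYM of project KK (MP_d47e08_pr). -/

set_option autoImplicit false
open MeasureTheory ProbabilityTheory Filter Topology

namespace KK14

namespace ASYMx

theorem tend (c d : ℝ) : Tendsto (fun n : ℕ => (c + d * Real.log n) / √(n : ℝ)) atTop (𝓝 0) := by
  have h1 : Tendsto (fun x : ℝ => Real.log x / x ^ (1 / 2 : ℝ)) atTop (𝓝 0) :=
    (isLittleO_log_rpow_atTop (by norm_num)).tendsto_div_nhds_zero
  have h2 : Tendsto (fun x : ℝ => (x ^ (1 / 2 : ℝ))⁻¹) atTop (𝓝 0) :=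
    tendsto_inv_atTop_zero.comp (tendsto_rpow_atTop (by norm_num))
  have h3 : Tendsto (fun x : ℝ => c * (x ^ (1 / 2 : ℝ))⁻¹ + d * (Real.log x / x ^ (1 / 2 : ℝ)))
      atTop (𝓝 0) := by
    have := (h2.const_mul c).add (h1.const_mul d)
    simpa using this
  have h4 := h3.comp (tendsto_natCast_atTop_atTop (R := ℝ))
  refine h4.congr fun n => ?_
  simp only [Function.comp]
  rw [Real.sqrt_eq_rpow]
  ring

end ASYMx

theorem ASYM (q l : ℕ) (hq : 1 ≤ q) (hl : q ≤ l) :
    ∀ᶠ n : ℕ in atTop, ∃ p : ℕ, 1 ≤ p ∧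
      (n.choose l : ℝ) * (2 * √(PP n q l * (l / q)) * TH n q l (2 * p)) ^ (2 * p) ≤
        (200 * √((l.choose q : ℝ) * l / (q * q.factorial)) * √((n : ℝ) ^ q)) ^ (2 * p) := by
  have hlN : 0 < l := by omega
  have hlpos : (0 : ℝ) < l := by exact_mod_cast hlN
  have hqpos : (0 : ℝ) < q := by exact_mod_cast (by omega : 0 < q)
  have hT : Tendsto (fun n : ℕ => (1 + ((l : ℝ) + (q * l / 4) * Real.log n) / √(n : ℝ)) ^ q) atTop
      (𝓝 1) := by
    have h := ((ASYMx.tend (l : ℝ) (q * l / 4)).const_add 1).pow q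
    simpa using h
  have hL : Tendsto (fun n : ℕ => (l : ℝ) * Real.log n / 8) atTop atTop := by
    apply Tendsto.atTop_div_const (by norm_num)
    exact Tendsto.const_mul_atTop hlpos
      (Real.tendsto_log_atTop.comp tendsto_natCast_atTop_atTop)
  filter_upwards [hT.eventually (eventually_le_nhds (by norm_num : (1 : ℝ) < 11 / 10)),
    hL.eventually_ge_atTop 9, eventually_ge_atTop 1] with n h1 h2 h3
  have hn : (1 : ℝ) ≤ n := by exact_mod_cast h3
  have hn0 : (0 : ℝ) < n := by linarith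
  have hlog0 : 0 ≤ Real.log n := Real.log_nonneg hn
  set p : ℕ := ⌊(l : ℝ) * Real.log n / 8⌋₊ with hp
  have hple : (p : ℝ) ≤ l * Real.log n / 8 := Nat.floor_le (by positivity)
  have hpgt : l * Real.log n / 8 < p + 1 := Nat.lt_floor_add_one _
  have hp8 : (8 : ℝ) ≤ p := by linarith
  have hp8' : 8 ≤ p := by exact_mod_cast hp8
  refine ⟨p, by omega, ?_⟩
  -- the binomial coefficient
  have hch : (n.choose l : ℝ) ≤ Real.exp 9 ^ p := by
    have e1 : (n.choose l : ℝ) ≤ (n : ℝ) ^ l := by exact_mod_cast Nat.choose_le_pow n l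
    have e2 : (n : ℝ) ^ l = Real.exp (l * Real.log n) := by
      rw [mul_comm, Real.exp_mul, Real.exp_log hn0, Real.rpow_natCast]
    rw [← Real.exp_nat_mul]
    refine e1.trans (e2 ▸ Real.exp_le_exp.2 ?_)
    nlinarith
  -- the error factor
  have hTH : TH n q l (2 * p) ≤ 11 / 10 := by
    refine le_trans ?_ h1
    unfold TH
    refine pow_le_pow_left₀ (by positivity) ?_ q
    have e1 : Real.exp (2 * ((2 * p : ℕ) : ℝ) / l) ≤ √(n : ℝ) := by
      have : √(n : ℝ) = Real.exp (Real.log n / 2) := by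
        rw [Real.sqrt_eq_rpow, Real.rpow_def_of_pos hn0]
        congr 1; ring
      rw [this]
      apply Real.exp_le_exp.2
      rw [div_le_iff₀ hlpos]
      push_cast
      nlinarith
    have e2 : (l : ℝ) + q * ((2 * p : ℕ) : ℝ) ≤ l + (q * l / 4) * Real.log n := by
      push_cast
      have := mul_le_mul_of_nonneg_left hple hqpos.le
      linarith
    have e3 : √(n : ℝ) * √(n : ℝ) = n := Real.mul_self_sqrt hn0.le
    have hs : 0 < √(n : ℝ) := Real.sqrt_pos.2 hn0
    have e4 : Real.exp (2 * ((2 * p : ℕ) : ℝ) / l) * (l + q * ((2 * p : ℕ) : ℝ)) / n ≤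
        (l + (q * l / 4) * Real.log n) / √(n : ℝ) := by
      rw [div_le_div_iff₀ hn0 hs]
      have e5 : 0 ≤ (l : ℝ) + (q * l / 4) * Real.log n := by positivity
      calc Real.exp (2 * ((2 * p : ℕ) : ℝ) / l) * (l + q * ((2 * p : ℕ) : ℝ)) * √(n : ℝ)
          ≤ √(n : ℝ) * (l + (q * l / 4) * Real.log n) * √(n : ℝ) := by gcongr
        _ = (l + (q * l / 4) * Real.log n) * (√(n : ℝ) * √(n : ℝ)) := by ring
        _ = (l + (q * l / 4) * Real.log n) * n := by rw [e3]
    linarith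
  have hTH0 : 0 ≤ TH n q l (2 * p) := by unfold TH; positivity
  -- the square roots
  have hsq : √(PP n q l * (l / q)) =
      √((l.choose q : ℝ) * l / (q * q.factorial)) * √((n : ℝ) ^ q) := by
    rw [← Real.sqrt_mul (by positivity)]
    congr 1
    unfold PP
    field_simp
  set Y : ℝ := √((l.choose q : ℝ) * l / (q * q.factorial)) * √((n : ℝ) ^ q) with hY
  have hY0 : 0 ≤ Y := by positivity
  rw [hsq, mul_assoc 200]
  have hexp9 : Real.exp 9 ≤ 8104 := by
    have h := Real.exp_one_lt_d9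
    have e1 : Real.exp 9 = Real.exp 1 ^ 9 := by rw [← Real.exp_nat_mul]; norm_num
    rw [e1]
    calc Real.exp 1 ^ 9 ≤ (2.7182818286 : ℝ) ^ 9 :=
          pow_le_pow_left₀ (Real.exp_pos 1).le h.le 9
      _ ≤ 8104 := by norm_num
  calc (n.choose l : ℝ) * (2 * Y * TH n q l (2 * p)) ^ (2 * p)
      ≤ Real.exp 9 ^ p * (2 * Y * (11 / 10)) ^ (2 * p) := by gcongr
    _ = (Real.exp 9 * (2 * Y * (11 / 10)) ^ 2) ^ p := by
        rw [mul_pow (Real.exp 9), ← pow_mul (2 * Y * (11 / 10)) 2 p]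
    _ ≤ ((200 * Y) ^ 2) ^ p := by
        refine pow_le_pow_left₀ (by positivity) ?_ p
        have e1 : Real.exp 9 * (2 * Y * (11 / 10)) ^ 2 = (Real.exp 9 * (121 / 25)) * Y ^ 2 := by
          ring
        have e2 : (200 * Y) ^ 2 = 40000 * Y ^ 2 := by ring
        have hY2 : 0 ≤ Y ^ 2 := sq_nonneg Y
        rw [e1, e2]
        refine mul_le_mul_of_nonneg_right ?_ hY2
        linarith
    _ = (200 * Y) ^ (2 * p) := by rw [← pow_mul]

end KK14
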